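import Pool.Agent.P8H32.LW.ZcVals

/-!
# Zero-cycles of degree zero on twists of cyclic coverings by the values of ARBITRARY polynomials with an
# absolutely irreducible simple factor: the exceptional arguments are pronull

Let `b y ^ 2 = ∏ k, G k (z, w)` be a hyperelliptic curve `D` over `ℚ`, where the `G k` are the
homogenisations of polynomials `g k` with integral coefficients, of even degrees, pairwise coprime, and
let `h` be a polynomial with integral coefficients, coprime to the `g k`, `H` its homogenisation
(`Admissible`). For an integer `a` and an even `m ∣ deg h` let

  `C a : b y ^ 2 = ∏ k, G k (z, w)`, `a x ^ m = H (z, w)`.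

For different `a` these coverings of `D` are twists of each other. The integer `a` has the property
`Good b g h` of the starting result `RandomOrbits` (whose definitions are used) if for all even
`m ∣ deg h` and every adelic zero-cycle `(z_v)` of degree zero (or of even degree) on `C a` which is
orthogonal to the quaternion algebras `(G k, e)`:
* there are squarefree integers `n k` with `G k (z_v) = n k` in `ℚ_v* / ℚ_v*²` for all `k` and all `v`,
  and the family `n` is persistent;
* if the zeros of `h` are one or two rational numbers `α₁`, `α₂` and `b ∏ g k (α₁)` is a square, there is
  a zero-cycle `z` of degree zero over `ℚ` with `G k (z) = G k (z_v)` in `ℚ_v* / ℚ_v*²` for all `k`, `v`;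
* if `h` has at most two zeros `x₁`, `x₂` and `∏ k, g k (x₁) g k (x₂)` is not a square in `ℚ`, or if the
  zeros of `h` are square roots of `A`, `B`, `A B`, where `A`, `B`, `A B` are not squares, and the values
  of the `g k` there are rational and depend only on the squares of the zeros, then `G k (z_v) = 1` in
  `ℚ_v* / ℚ_v*²` for all `k` and all `v`.

The twists are by `a = F (c)`, where `F` is ANY polynomial in any number of variables with integral
coefficients which has a simple factor (`GoodFactor`): `F = H G` over `ℚ`, where `H` is irreducible over the
algebraic closure of `ℚ` and does not divide `G` (`AbsFactor`), or `F = (A x_l + B) G`, where `A` and `B` do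
not contain `x_l` and `G` does not vanish identically on `x_l = - B / A` (`SimpleFactor`). For example `F` can
be any polynomial which is itself irreducible over the algebraic closure of `ℚ`, as a nondegenerate
quadratic form in three or more variables, or a form in three or more variables which defines a smooth
projective hypersurface.

**Theorem.** For every family `(b, g, h)` and every such `F` the set of the vectors `c ∈ ℤ^ι` for which
`a = F (c)` does not have the property `Good b g h` is pronull (`ProNull`): its closure in the product of the
`ℤ_p^ι`, `p` not dividing `M`, has Haar measure zero, for all `M`. In other words: for every `M > 0` and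
`ε > 0` there is a `q` prime to `M` such that these vectors are in at most `ε q ^ |ι|` residue classes modulo
`q`. In particular `a = F (c)` has the property `Good b g h` for 100% of the vectors `c` in the boxes
`|c_i| ≤ X`, although the integers of the form `F (c)` are in general a set of density zero.

The starting results treat the values of linear forms (`RandomOrbits`, `MetricSequences`) and integer parts
of generalised polynomials (`ThinSequences`). Here the hypersurface `H = 0` can be of general type, and
nothing is known about its rational points.

Proof. For a class which is not persistent there is a set `P` of primes of positive density (Chebotarev's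
theorem) such that no zero-cycle of `C a` over `ℚ_p` has this class if `p ∈ P` divides `a` exactly once
(local analysis of helper925). The new step: for an absolutely irreducible hypersurface `H = 0` and ALL
large primes `p` the residue classes `c` modulo `p²` with `p` exactly dividing `H (c)` and not dividing
`G (c)` have a density of at least `1 / (4 p)`. The theorem of Landau, Lang and Weil of the starting library
gives `|Hom(R, 𝔽_p)| = p^s |Hom(𝓞_L, 𝔽_p)| + O(p^(s - 1/2))` for the integral model `R` of the function
field, with a number field `L` which it does not identify; the set `P` and the primes which split in `L`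
could be disjoint. For absolutely irreducible `H` the field `L` is `ℚ`: if `L ≠ ℚ`, let `K` be a number field
with two different embeddings of `L`; the function field of `H = 0` over `K` has an integral model `R'`
with a field `L'`, and `Hom(𝓞_K, 𝔽_p) × Hom(R, 𝔽_p)` maps injectively to `Hom(R', 𝔽_p)`, hence
`2 |Hom(𝓞_K, 𝔽_p)| ≤ |Hom(𝓞_K, 𝔽_p)| |Hom(𝓞_L, 𝔽_p)| ≤ |Hom(𝓞_L', 𝔽_p)|` for all large `p`, but both
`|Hom(𝓞_K, 𝔽_p)|` and `|Hom(𝓞_L', 𝔽_p)|` have the mean value one (prime ideal theorem). Then the local
criterion for pronull sets of the starting library applies.
-/

set_option autoImplicit false

namespace Pool.Agent.Results.MP_f80667_ag.AbsolutelyIrreducibleValues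

open Polynomial
open Pool.Agent.N24.RW
open Pool.Agent.Results.MP_f80667_ag.DegreeZeroComplexOfTwists (Admissible)
open Pool.Agent.Results.MP_f80667_ag.RandomOrbits (Good)
open Pool.Agent.P8H32.LW (GoodFactor zc_null)

theorem result (r : ℕ) (b : ℤ) (g : Fin r → ℤ[X]) (h : ℤ[X]) (hA : Admissible b g h) (ι : Type)
    [Fintype ι] (F : MvPolynomial ι ℤ) (hF : GoodFactor F) :
    ProNull {c : ι → ℤ | ¬ Good b g h (MvPolynomial.eval c F)} :=
  zc_null hA hF

end Pool.Agent.Results.MP_f80667_ag.AbsolutelyIrreducibleValues
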