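import Pool.Agent.P8H32.LW.ZcVals
import Pool.Agent.N53.CF.All

/-!
# Zero-cycles of degree zero on twists of cyclic coverings by the values of polynomials at the
# numerators and denominators of the convergents of a normal continued fraction

Let `b y ^ 2 = ∏ k, G k (z, w)` be a hyperelliptic curve `D` over `ℚ`, where the `G k` are the
homogenisations of polynomials `g k` with integral coefficients, of even degrees, pairwise coprime, and
let `h` be a polynomial with integral coefficients, coprime to the `g k`, `H` its homogenisation
(`Admissible`). For an integer `a` and an even `m ∣ deg h` let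

  `C a : b y ^ 2 = ∏ k, G k (z, w)`, `a x ^ m = H (z, w)`.

For different `a` these coverings of `D` are twists of each other. The quaternion algebras `(G k, e)`
belong to the Brauer group of `C a`, and the functions `G k` define homomorphisms from the zero-cycles
of degree zero modulo rational equivalence on `C a` over a field `F` to `F* / F*²`. The integer `a` has
the property `Good b g h` of the starting result `RandomOrbits` (whose definitions are used) if for all
even `m ∣ deg h` and every adelic zero-cycle `(z_v)` of degree zero (or of even degree) on `C a` which is
orthogonal to the quaternion algebras `(G k, e)`: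
* there are squarefree integers `n k` with `G k (z_v) = n k` in `ℚ_v* / ℚ_v*²` for all `k` and all `v`,
  and the family `n` is persistent;
* if the zeros of `h` are one or two rational numbers `α₁`, `α₂` and `b ∏ g k (α₁)` is a square, there is
  a zero-cycle `z` of degree zero over `ℚ` with `G k (z) = G k (z_v)` in `ℚ_v* / ℚ_v*²` for all `k`, `v`;
* if `h` has at most two zeros `x₁`, `x₂` and `∏ k, g k (x₁) g k (x₂)` is not a square in `ℚ`, or if the
  zeros of `h` are square roots of `A`, `B`, `A B`, where `A`, `B`, `A B` are not squares, and the values
  of the `g k` there are rational and depend only on the squares of the zeros, then `G k (z_v) = 1` in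
  `ℚ_v* / ℚ_v*²` for all `k` and all `v`.

The number `α` in `(0, 1)` is continued fraction normal (`CFNormal`) if it is irrational and its orbit
under the Gauss map `x ↦ 1 / x - ⌊1 / x⌋` (`gauss`) is distributed according to the Gauss measure
`dx / ((1 + x) log 2)`. Let `p_n / q_n = [0; a_1, …, a_n]` be the convergents of `α`; here
`a_(j + 1) = dig α j`, and `cvg (dig α) n = (p_n, q_n)`.

The polynomials `F` in two variables with integral coefficients are those with a simple factor
(`GoodFactor`): `F = H G` over `ℚ`, where `H` is irreducible over the algebraic closure of `ℚ` and does not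
divide `G` (`AbsFactor`), for example all absolutely irreducible polynomials as `X ^ 2 + Y ^ 2 + 1` or
`X ^ 5 + Y ^ 3 + X Y`; or `F = (A x_l + B) G`, where `A` and `B` do not contain `x_l` and `G` does not vanish
identically on the curve `x_l = - B / A` (`SimpleFactor`), for example all polynomials which are divisible
exactly once by a polynomial `u X + v Y + w` with rational coefficients, `(u, v) ≠ (0, 0)`, or the
polynomial `(X Y + 1) (X ^ 4 + Y ^ 4)`.

**Theorem.** Let `α` be any continued fraction normal number. There is ONE set `E` of indices of natural
density zero such that for ALL polynomials `F` with a simple factor and ALL families `(b, g, h)` the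
twist by `a = F (p_n, q_n)` has the property `Good b g h` for all but finitely many `n ∉ E`. In
particular all adelic zero-cycles of even degree on the curves `y² = (z² + 51) (z² - 1)`,
`a x ^ m = (z² + 1) (z² - 17) (z² + 17)`, `m = 2, 6`, which are orthogonal to the quaternion algebras
`(G k, e)` have the trivial values `G k (z_v) = 1`, for all but finitely many `n ∉ E`. Almost all real
numbers in `(0, 1)` are continued fraction normal.

(Last part: linear factors.) Every `F = (u X + v Y + w) G`, where `(u, v) ≠ (0, 0)` and `G` does not
vanish at some rational point of the line `u X + v Y + w = 0`, has a simple factor. So the theorem applies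
for example to the twists by `p_n`, `q_n`, `q_n + 1`, `q_n ^ 2 - 1` and `q_n (q_n ^ 2 - 2 p_n ^ 2)`.

The starting results treat 100% of the squarefree integers (`DegreeZeroComplexOfTwists`), the values of
linear forms at random orbits and metric sequences (`RandomOrbits`, `MetricSequences`) and the integer
parts of generalised polynomials (`ThinSequences`). Here `α` is an arbitrary normal number, the
condition on `α` has nothing to do with the curves, only `O (log X)` of the integers up to `X` occur as
twists, and the values of polynomials are new also for almost all `α`.

Proof. For a class which is not persistent there is a set `P` of primes of positive density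
(Chebotarev's theorem) such that no zero-cycle of `C a` over `ℚ_p` has this class if `p ∈ P` divides `a`
exactly once (local analysis of helper925, `zc_once` of helper18). If `H` is absolutely irreducible, the
residue classes `c` modulo `p²` for which `p` divides `H (c)` exactly once and does not divide `G (c)` have a
density of at least `1 / (4 p)` for ALL large `p`: see `AbsolutelyIrreducibleValues`, where it is shown that
the number field in the theorem of Landau, Lang and Weil of the starting library is `ℚ`. For the factors
`A x_l + B` there is an elementary proof: there is a polynomial `N` without `x_l`, not zero, with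
`A ^ e G = N` modulo `A x_l + B`; for the classes where `p` does not divide `A N` (theorem of
Schwartz-Zippel) the equation `A x_l + B = t` is solved by exactly one `x_l` for every `t`. So the set
of the vectors `c` for which no `p ∈ P` divides `F (c)` exactly once is pronull (its closure in the
product of the `ℤ_p ^ 2`, `p` not dividing `M`, has Haar measure zero, for all `M`). By the theorem of the
project CF of the starting library (helper53 and others: the extensions of the Gauss map by the finite
groups `GL_2 (ℤ / q)` are ergodic) the convergents of every normal continued fraction are in a given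
pronull set only for indices of density zero. There are countably many `F` and `(b, g, h)`, and a
diagonal argument gives one set `E`.
-/

set_option autoImplicit false

namespace Pool.Agent.Results.MP_f80667_ag.ConvergentsOfNormalNumbers

open Polynomial MeasureTheory Filter Topology
open Pool.Agent.N53.CF (CFNormal cvg)
open Pool.Agent.W811.Stu (gauss dig)
open Pool.Agent.P8H32.CV (SimpleFactor)
open Pool.Agent.P8H32.LW (GoodFactor ValuesGood valuesGood_of badV_null goodF_of)

/-- The linear polynomial `u X + v Y + w`. -/
noncomputable def line (u v w : ℚ) : MvPolynomial (Fin 2) ℚ :=
  MvPolynomial.C u * MvPolynomial.X 0 + MvPolynomial.C v * MvPolynomial.X 1 + MvPolynomial.C w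

lemma simple_of_line {F : MvPolynomial (Fin 2) ℤ} {u v w : ℚ} {G : MvPolynomial (Fin 2) ℚ}
    (huv : u ≠ 0 ∨ v ≠ 0) (hF : F.map (Int.castRingHom ℚ) = line u v w * G)
    (hx : ∃ x : Fin 2 → ℚ, MvPolynomial.eval x (line u v w) = 0 ∧ MvPolynomial.eval x G ≠ 0) :
    SimpleFactor F := by
  classical
  obtain ⟨x, hx1, hx2⟩ := hx
  have hX : ∀ (i j : Fin 2) (c d : ℚ), i ≠ j →
      i ∉ (MvPolynomial.C c * MvPolynomial.X j + MvPolynomial.C d : MvPolynomial (Fin 2) ℚ).vars := by
    intro i j c d hij h
    have h1 := MvPolynomial.vars_add_subset _ _ h
    rw [MvPolynomial.vars_C, Finset.union_empty] at h1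
    have h2 := MvPolynomial.vars_mul _ _ h1
    rw [MvPolynomial.vars_C, Finset.empty_union, MvPolynomial.vars_X, Finset.mem_singleton] at h2
    exact hij h2
  rcases huv with hu | hv
  · have e : line u v w = MvPolynomial.C u * MvPolynomial.X 0 +
        (MvPolynomial.C v * MvPolynomial.X 1 + MvPolynomial.C w) := by
      unfold line
      ring
    rw [e] at hF hx1
    refine ⟨0, MvPolynomial.C u, _, G, ?_, hX 0 1 v w (by decide), hF, x, ?_, hx1, hx2⟩
    · rw [MvPolynomial.vars_C]
      exact Finset.notMem_empty _
    · rwa [MvPolynomial.eval_C]
  · have e : line u v w = MvPolynomial.C v * MvPolynomial.X 1 +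
        (MvPolynomial.C u * MvPolynomial.X 0 + MvPolynomial.C w) := by
      unfold line
      ring
    rw [e] at hF hx1
    refine ⟨1, MvPolynomial.C v, _, G, ?_, hX 1 0 u w (by decide), hF, x, ?_, hx1, hx2⟩
    · rw [MvPolynomial.vars_C]
      exact Finset.notMem_empty _
    · rwa [MvPolynomial.eval_C]

theorem result :
    (∀ α : ℝ, CFNormal α → ValuesGood (cvg (dig α))) ∧
    (∀ᵐ α ∂(volume.restrict (Set.Ioo (0 : ℝ) 1)), CFNormal α) ∧
    ∀ (F : MvPolynomial (Fin 2) ℤ) (u v w : ℚ) (G : MvPolynomial (Fin 2) ℚ), (u ≠ 0 ∨ v ≠ 0) →
      F.map (Int.castRingHom ℚ) = line u v w * G →
      (∃ x : Fin 2 → ℚ, MvPolynomial.eval x (line u v w) = 0 ∧ MvPolynomial.eval x G ≠ 0) →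
      GoodFactor F :=
  ⟨fun α hα => valuesGood_of fun x => Pool.Agent.N53.CF.main _ (badV_null goodF_of x) α hα,
    Pool.Agent.N53.CF.t_TYP, fun F u v w G huv hF hx => Or.inr (simple_of_line huv hF hx)⟩

end Pool.Agent.Results.MP_f80667_ag.ConvergentsOfNormalNumbers
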