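import Pool.Agent.P8H32.LW.ZcVals
import Pool.Agent.N24.RW.All
import Pool.Agent.N24.KM.All

/-!
# Zero-cycles of degree zero on twists of cyclic coverings by the values of ARBITRARY polynomials with an
# absolutely irreducible simple factor, at arbitrary sequences, for almost all multipliers

Let `b y ^ 2 = ∏ k, G k (z, w)` be a hyperelliptic curve `D` over `ℚ`, where the `G k` are the
homogenisations of polynomials `g k` with integral coefficients, of even degrees, pairwise coprime, and
let `h` be a polynomial with integral coefficients, coprime to the `g k`, `H` its homogenisation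
(`Admissible`). For an integer `a` and an even `m ∣ deg h` let

  `C a : b y ^ 2 = ∏ k, G k (z, w)`, `a x ^ m = H (z, w)`.

For different `a` these coverings of `D` are twists of each other. The integer `a` has the property
`Good b g h` of the starting result `RandomOrbits` (whose definitions are used) if for all even
`m ∣ deg h` and every adelic zero-cycle `(z_v)` of degree zero (or of even degree) on `C a` which is
orthogonal to the quaternion algebras `(G k, e)`:
* there are squarefree integers `n k` with `G k (z_v) = n k` in `ℚ_v* / ℚ_v*²` for all `k` and all `v`,
  and the family `n` is persistent;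
* if the zeros of `h` are one or two rational numbers `α₁`, `α₂` and `b ∏ g k (α₁)` is a square, there is
  a zero-cycle `z` of degree zero over `ℚ` with `G k (z) = G k (z_v)` in `ℚ_v* / ℚ_v*²` for all `k`, `v`;
* if `h` has at most two zeros `x₁`, `x₂` and `∏ k, g k (x₁) g k (x₂)` is not a square in `ℚ`, or if the
  zeros of `h` are square roots of `A`, `B`, `A B`, where `A`, `B`, `A B` are not squares, and the values
  of the `g k` there are rational and depend only on the squares of the zeros, then `G k (z_v) = 1` in
  `ℚ_v* / ℚ_v*²` for all `k` and all `v`.

The twists are by `a = F (c)`, where `F` is ANY polynomial in the variables `x_i`, `i ∈ ι`, with integral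
coefficients which has a simple factor (`GoodFactor`): `F = H G` over `ℚ`, where `H` is irreducible over the
algebraic closure of `ℚ` and does not divide `G` (`AbsFactor`), or `F = (A x_l + B) G`, where `A` and `B` do
not contain `x_l` and `G` does not vanish identically on `x_l = - B / A` (`SimpleFactor`).

A sequence `c_0, c_1, …` of vectors in `ℤ ^ ι` (`ι` a finite set) is called good (`ValuesGood`) if there is
ONE set `E` of indices of natural density zero, such that for ALL families `(b, g, h)` and ALL such
polynomials `F` the twist by `a = F (c_n)` has the property `Good b g h`, for all but finitely many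
`n ∉ E`, and the orthogonal adelic zero-cycles of even degree on the curves `y² = (z² + 51) (z² - 1)`,
`a x ^ m = (z² + 1) (z² - 17) (z² + 17)`, `m = 2, 6`, have trivial values.

**Theorem.**
1. Let `f_{i,0}, f_{i,1}, …` (`i ∈ ι`) be functions which satisfy the hypothesis of Koksma's theorem on
   `[a_i, b_i]` (`Koksma`). Then `c_n = (⌊f_{i,n}(α_i)⌋)_i` is good for almost all `α` with
   `a_i ≤ α_i ≤ b_i`.
2. Let `a_{i,0}, a_{i,1}, …` (`i ∈ ι`) be ANY sequences of real numbers with mutual distances at least
   `δ > 0`, for example any sequences of different integers (`n!`, `2 ^ n`, any enumeration of any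
   infinite set of integers or of primes), and possibly all the same. Then `c_n = (⌊a_{i,n} α_i⌋)_i` is
   good for almost all `α`.
3. Let `k_0, k_1, …` be ANY sequence of different natural numbers, and `ξ_i ≠ 0`. Then
   `c_n = (⌊ξ_i α_i ^ k_n⌋)_i` is good for almost all `α` with all `α_i > 1`.

The starting result `MetricSequences` treats the values of linear forms; here the twists are by the values
of nonlinear polynomials, for instance `a = ⌊n! α⌋² + ⌊n! β⌋² + 1` for almost all `(α, β)`.

Proof. For a class which is not persistent there is a set `P` of primes of positive density (Chebotarev's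
theorem) such that no zero-cycle of `C a` over `ℚ_p` has this class if `p ∈ P` divides `a` exactly once
(local analysis of helper925). For an absolutely irreducible hypersurface `H = 0` and ALL large primes `p`
the residue classes `c` modulo `p²` with `p` exactly dividing `H (c)` and not dividing `G (c)` have a density
of at least `1 / (4 p)`: see `ValuesAtRandomOrbits` for this step. So the set of the `c` such that no prime
of `P` divides `F (c)` exactly once is pronull. By the theorem of Koksma in several variables (project KM of
the starting library) almost all metric sequences are in a given pronull set only for indices of density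
zero; there are countably many `F` and `(b, g, h)`, and a diagonal argument gives one set `E`.
-/

set_option autoImplicit false

namespace Pool.Agent.Results.MP_f80667_ag.ValuesAtMetricSequences

open MeasureTheory Filter Topology
open Pool.Agent.P8H32.LW (ValuesGood valuesGood_of DatV Fam BadV goodF goodF_of badV_null)
open Pool.Agent.N24.KM (Koksma)

theorem result (ι : Type) [Fintype ι] :
    (∀ (a b : ι → ℝ) (f : ι → ℕ → ℝ → ℝ), (∀ i, a i < b i) → (∀ i, Koksma (a i) (b i) (f i)) →
      ∀ᵐ α : ι → ℝ, (∀ i, α i ∈ Set.Icc (a i) (b i)) → ValuesGood (fun n i => ⌊f i n (α i)⌋)) ∧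
    (∀ (a : ι → ℕ → ℝ) (δ : ℝ), 0 < δ → (∀ i m n, m ≠ n → δ ≤ |a i m - a i n|) →
      ∀ᵐ α : ι → ℝ, ValuesGood (fun n i => ⌊a i n * α i⌋)) ∧
    (∀ (k : ℕ → ℕ) (ξ : ι → ℝ), Function.Injective k → (∀ i, ξ i ≠ 0) →
      ∀ᵐ α : ι → ℝ, (∀ i, 1 < α i) → ValuesGood (fun n i => ⌊ξ i * α i ^ k n⌋)) :=
  Pool.Agent.N18.KM.parts Pool.Agent.N24.KM.main (κ := DatV ι Fam) (BadV goodF)
    (fun x => badV_null goodF_of x) ValuesGood fun _ hc => valuesGood_of hc

end Pool.Agent.Results.MP_f80667_ag.ValuesAtMetricSequences
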