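import Pool.Agent.P8H32.LW.ZcVals
import Pool.Agent.N24.RW.All

/-!
# Zero-cycles of degree zero on twists of cyclic coverings by the values of ARBITRARY polynomials with an
# absolutely irreducible simple factor, at random orbits of thin groups

Let `b y ^ 2 = ∏ k, G k (z, w)` be a hyperelliptic curve `D` over `ℚ`, where the `G k` are the
homogenisations of polynomials `g k` with integral coefficients, of even degrees, pairwise coprime, and
let `h` be a polynomial with integral coefficients, coprime to the `g k`, `H` its homogenisation
(`Admissible`). For an integer `a` and an even `m ∣ deg h` let

  `C a : b y ^ 2 = ∏ k, G k (z, w)`, `a x ^ m = H (z, w)`.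

For different `a` these coverings of `D` are twists of each other. The integer `a` has the property
`Good b g h` of the starting result `RandomOrbits` (whose definitions are used) if for all even
`m ∣ deg h` and every adelic zero-cycle `(z_v)` of degree zero (or of even degree) on `C a` which is
orthogonal to the quaternion algebras `(G k, e)`:
* there are squarefree integers `n k` with `G k (z_v) = n k` in `ℚ_v* / ℚ_v*²` for all `k` and all `v`,
  and the family `n` is persistent;
* if the zeros of `h` are one or two rational numbers `α₁`, `α₂` and `b ∏ g k (α₁)` is a square, there is
  a zero-cycle `z` of degree zero over `ℚ` with `G k (z) = G k (z_v)` in `ℚ_v* / ℚ_v*²` for all `k`, `v`;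
* if `h` has at most two zeros `x₁`, `x₂` and `∏ k, g k (x₁) g k (x₂)` is not a square in `ℚ`, or if the
  zeros of `h` are square roots of `A`, `B`, `A B`, where `A`, `B`, `A B` are not squares, and the values
  of the `g k` there are rational and depend only on the squares of the zeros, then `G k (z_v) = 1` in
  `ℚ_v* / ℚ_v*²` for all `k` and all `v`.

The twists are by `a = F (c)`, where `F` is ANY polynomial in any number of variables with integral
coefficients which has a simple factor (`GoodFactor`): `F = H G` over `ℚ`, where `H` is irreducible over the
algebraic closure of `ℚ` and does not divide `G` (`AbsFactor`), or `F = (A x_l + B) G`, where `A` and `B` do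
not contain `x_l` and `G` does not vanish identically on `x_l = - B / A` (`SimpleFactor`). For example `F` can
be any polynomial which is itself irreducible over the algebraic closure of `ℚ`, as a nondegenerate
quadratic form in three or more variables, or a form in three or more variables which defines a smooth
projective hypersurface.

**Theorem.** Let `W` be a finite family `s_0, …, s_M` of matrices in `SL_r(ℤ)`, `r ≥ 2`, which generates `SL_r(ℤ/q)` for
all `q` prime to some `q₀` (by strong approximation this is so for every finite set of matrices which
generates a Zariski dense subgroup, for example a thin one), let `w 0, w 1, …` be independent uniformly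
distributed indices, and `c_t = s_(w (t-1)) ⋯ s_(w 0) v` (`orb`). For almost every word `w` and every vector
`v ≠ 0` there is ONE set `E` of times of density zero such that for ALL such polynomials `F` and ALL families
`(b, g, h)` the integer `a = F (c_t)` has the property `Good b g h` for all but finitely many `t` outside
`E`. For all but finitely many `t` outside `E` all adelic zero-cycles of even degree on the curves
`y² = (z² + 51) (z² - 1)`, `a x ^ m = (z² + 1) (z² - 17) (z² + 17)`, `m = 2, 6`, which are orthogonal to the
quaternion algebras `(G k, e)` have the trivial values `G k (z_v) = 1`.

The starting results treat the values of linear forms (`RandomOrbits`, `MetricSequences`) and integer parts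
of generalised polynomials (`ThinSequences`). Here the hypersurface `H = 0` can be of general type, and
nothing is known about its rational points.

Proof. For a class which is not persistent there is a set `P` of primes of positive density (Chebotarev's
theorem) such that no zero-cycle of `C a` over `ℚ_p` has this class if `p ∈ P` divides `a` exactly once
(local analysis of helper925). The new step: for an absolutely irreducible hypersurface `H = 0` and ALL
large primes `p` the residue classes `c` modulo `p²` with `p` exactly dividing `H (c)` and not dividing
`G (c)` have a density of at least `1 / (4 p)`. The theorem of Landau, Lang and Weil of the starting library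
gives `|Hom(R, 𝔽_p)| = p^s |Hom(𝓞_L, 𝔽_p)| + O(p^(s - 1/2))` for the integral model `R` of the function
field, with a number field `L` which it does not identify; the set `P` and the primes which split in `L`
could be disjoint. For absolutely irreducible `H` the field `L` is `ℚ`: if `L ≠ ℚ`, let `K` be a number field
with two different embeddings of `L`; the function field of `H = 0` over `K` has an integral model `R'`
with a field `L'`, and `Hom(𝓞_K, 𝔽_p) × Hom(R, 𝔽_p)` maps injectively to `Hom(R', 𝔽_p)`, hence
`2 |Hom(𝓞_K, 𝔽_p)| ≤ |Hom(𝓞_K, 𝔽_p)| |Hom(𝓞_L, 𝔽_p)| ≤ |Hom(𝓞_L', 𝔽_p)|` for all large `p`, but both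
`|Hom(𝓞_K, 𝔽_p)|` and `|Hom(𝓞_L', 𝔽_p)|` have the mean value one (prime ideal theorem). Then the local
criterion for pronull sets applies; random orbits are in pronull sets only at times of density zero
(starting library), there are countably many `F` and `(b, g, h)`, and a diagonal argument gives one set `E`.
-/

set_option autoImplicit false

namespace Pool.Agent.Results.MP_f80667_ag.ValuesAtRandomOrbits

open MeasureTheory Filter Topology
open Pool.Agent.N24.RW
open Pool.Agent.P8H32.LW (ValuesGood valuesGood_of DatV Fam BadV goodF goodF_of badV_null)

theorem result (ι : Type) [Fintype ι] [DecidableEq ι] (hι : 2 ≤ Fintype.card ι) (W : Walk ι) :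
    ∀ᵐ w ∂(words W.m), ∀ v : ι → ℤ, v ≠ 0 → ValuesGood (orb W v w) := by
  refine ae_all_iff.2 fun v => ?_
  by_cases hv : v = 0
  · exact ae_of_all _ fun w h => absurd hv h
  have h1 : ∀ᵐ w ∂(words W.m), ∀ x : DatV ι Fam,
      Pool.Agent.N24.KM.Rarely (orb W v w) (BadV goodF x) :=
    ae_all_iff.2 fun x => main ι hι W v hv _ (badV_null goodF_of x)
  filter_upwards [h1] with w hw _
  exact valuesGood_of hw

end Pool.Agent.Results.MP_f80667_ag.ValuesAtRandomOrbits
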